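import Pool.Agent.Helper91.FF.PUSH

/-! # Firefighter on trees: protecting the bad vertices (part FWDV) -/

namespace Pool.FF.Helper91

open Pool.FF

lemma filter_map_good {D : Type} (data : ℕ → D) (good : D → Bool) (l : List ℕ) :
    (l.filter (fun u => good (data u))).map data = (l.map data).filter good := by
  induction l with
  | nil => rfl
  | cons a l ih =>
    rw [List.filter_cons, List.map_cons, List.filter_cons]
    split_ifs <;> simp [ih]

theorem fwdv (hDEP : S_DEP) : S_FWDV := by
  classical
  intro D ch r H p data good hU hpr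
  obtain ⟨hp, hr, hch⟩ := hU
  obtain ⟨-, hd0, hD⟩ := hDEP p hp
  -- the children
  have hks : ∃ ks : ℕ → List ℕ, ∀ v, v ≤ p.length → dep p v < H →
      (∀ u, u ∈ ks v ↔ 1 ≤ u ∧ u ≤ p.length ∧ par p u = v) ∧
        (ks v).map data = ch (dep p v) (data v) := by
    have : ∀ v, ∃ k : List ℕ, v ≤ p.length → dep p v < H →
        (∀ u, u ∈ k ↔ 1 ≤ u ∧ u ≤ p.length ∧ par p u = v) ∧
        k.map data = ch (dep p v) (data v) := by
      intro v
      by_cases h : v ≤ p.length ∧ dep p v < H
      · obtain ⟨k, -, h2, h3⟩ := (hch v h.1).2 h.2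
        exact ⟨k, fun _ _ => ⟨h2, h3⟩⟩
      · exact ⟨[], fun h1 h2 => absurd ⟨h1, h2⟩ h⟩
    choose ks hks using this
    exact ⟨ks, hks⟩
  obtain ⟨ks, hks⟩ := hks
  -- the levels
  let L : ℕ → List ℕ := fun t => Nat.rec [0] (fun _ l => (l.flatMap ks).filter
    (fun u => good (data u))) t
  have hL0 : L 0 = [0] := rfl
  have hLs : ∀ t, L (t + 1) = ((L t).flatMap ks).filter (fun u => good (data u)) := fun t => rfl
  have hLmem : ∀ t ≤ H, ∀ v ∈ L t, v ≤ p.length ∧ dep p v = t := by
    intro t
    induction t with
    | zero =>
      intro _ v hv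
      rw [hL0, List.mem_singleton] at hv
      subst hv
      exact ⟨Nat.zero_le _, hd0⟩
    | succ t ih =>
      intro ht v hv
      rw [hLs, List.mem_filter, List.mem_flatMap] at hv
      obtain ⟨⟨w, hw, hv1⟩, -⟩ := hv
      obtain ⟨hw1, hw2⟩ := ih (by omega) w hw
      obtain ⟨h1, h2, h3⟩ := ((hks w hw1 (by omega)).1 v).1 hv1
      refine ⟨h2, ?_⟩
      rw [(hD v h1 h2).2, h3, hw2]
  have hflat : ∀ t < H, ((L t).flatMap ks).map data = ((L t).map data).flatMap (ch t) := by
    intro t ht
    rw [List.map_flatMap, List.flatMap_map]
    apply List.flatMap_congr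
    intro v hv
    obtain ⟨h1, h2⟩ := hLmem t ht.le v hv
    rw [(hks v h1 (by omega)).2, h2]
  have hLmap : ∀ t ≤ H, (L t).map data = fr ch good r t := by
    intro t
    induction t with
    | zero =>
      intro _
      rw [hL0, fr, List.map_singleton, hr]
    | succ t ih =>
      intro ht
      rw [hLs, filter_map_good, hflat t (by omega), ih (by omega), fr]
  -- good paths
  set gp : ℕ → Prop := fun v => ∀ j, (par p)^[j] v = 0 ∨ good (data ((par p)^[j] v)) = true with hgp
  have hgp_par : ∀ v, gp v → gp (par p v) := by
    intro v hv j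
    have := hv (j + 1)
    rwa [Function.iterate_succ_apply] at this
  have hgpL : ∀ t, t ≤ H → ∀ v, v ≤ p.length → gp v → dep p v = t → v ∈ L t := by
    intro t
    induction t with
    | zero =>
      intro _ v hv _ hd
      rcases Nat.eq_zero_or_pos v with h | h
      · subst h
        rw [hL0]
        exact List.mem_singleton.2 rfl
      · have := (hD v h hv).2
        omega
    | succ t ih =>
      intro ht v hv hg hd
      have h1 : 1 ≤ v := by
        rcases Nat.eq_zero_or_pos v with h | h
        · subst h
          omega
        · exact h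
      obtain ⟨h2, h3⟩ := hD v h1 hv
      have h4 := ih (by omega) (par p v) (by omega) (hgp_par v hg) (by omega)
      rw [hLs, List.mem_filter, List.mem_flatMap]
      refine ⟨⟨par p v, h4, ?_⟩, ?_⟩
      · exact ((hks _ (by omega) (by omega)).1 v).2 ⟨h1, hv, rfl⟩
      · have := hg 0
        rw [Function.iterate_zero, id] at this
        rcases this with h5 | h5
        · omega
        · exact h5
  set A : Finset ℕ := (Finset.range (p.length + 1)).filter
    (fun u => 1 ≤ u ∧ good (data u) = false ∧ gp (par p u)) with hA
  have hAmem : ∀ u, u ∈ A ↔ u ≤ p.length ∧ 1 ≤ u ∧ good (data u) = false ∧ gp (par p u) := by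
    intro u
    rw [hA, Finset.mem_filter, Finset.mem_range]
    constructor
    · rintro ⟨h1, h2⟩
      exact ⟨by omega, h2⟩
    · rintro ⟨h1, h2⟩
      exact ⟨by omega, h2⟩
  have hlev : ∀ s < H, (A.filter (fun a => dep p a = s + 1)).card ≤ (pr ch good r s).length := by
    intro s hs
    have h1 : A.filter (fun a => dep p a = s + 1) ⊆
        (((L s).flatMap ks).filter (fun u => !(good (data u)))).toFinset := by
      intro a ha
      rw [Finset.mem_filter, hAmem] at ha
      obtain ⟨⟨h2, h3, h4, h5⟩, h6⟩ := ha
      obtain ⟨h7, h8⟩ := hD a h3 h2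
      rw [List.mem_toFinset, List.mem_filter, List.mem_flatMap]
      refine ⟨⟨par p a, hgpL s hs.le _ (by omega) h5 (by omega), ?_⟩, by simp [h4]⟩
      exact ((hks _ (by omega) (by omega)).1 a).2 ⟨h3, h2, rfl⟩
    have h2 := (Finset.card_le_card h1).trans (List.toFinset_card_le _)
    have h3 : (((L s).flatMap ks).filter (fun u => !(good (data u)))).length =
        (pr ch good r s).length := by
      rw [pr, ← hLmap s hs.le, ← hflat s hs, ← filter_map_good data (fun x => !(good x)),
        List.length_map]
    omega
  have hdepA : ∀ a ∈ A, 1 ≤ dep p a ∧ dep p a ≤ H := by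
    intro a ha
    rw [hAmem] at ha
    exact ⟨dep_pos hD ha.2.1 ha.1, (hch a ha.1).1⟩
  have hcount : ∀ t ≤ H, (A.filter (fun a => dep p a ≤ t)).card ≤
      ∑ s ∈ Finset.range t, (pr ch good r s).length := by
    intro t ht
    have h1 : A.filter (fun a => dep p a ≤ t) ⊆
        (Finset.range t).biUnion (fun s => A.filter (fun a => dep p a = s + 1)) := by
      intro a ha
      rw [Finset.mem_filter] at ha
      rw [Finset.mem_biUnion]
      have := hdepA a ha.1
      refine ⟨dep p a - 1, Finset.mem_range.2 (by omega), Finset.mem_filter.2 ⟨ha.1, by omega⟩⟩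
    refine (Finset.card_le_card h1).trans (Finset.card_biUnion_le.trans ?_)
    apply Finset.sum_le_sum
    intro s hs
    exact hlev s (by have := Finset.mem_range.1 hs; omega)
  have hAall : ∀ t, H ≤ t → A.filter (fun a => dep p a ≤ t) = A.filter (fun a => dep p a ≤ H) := by
    intro t ht
    apply Finset.filter_congr
    intro a ha
    have := hdepA a ha
    constructor <;> intro _ <;> omega
  refine ⟨A, ⟨?_, ?_⟩, ?_, ?_⟩
  · intro a ha
    rw [hAmem] at ha
    exact ⟨ha.2.1, ha.1⟩
  · intro t
    rcases Nat.le_total t H with h | h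
    · exact (hcount t h).trans (hpr t h)
    · rw [hAall t h]
      exact ((hcount H le_rfl).trans (hpr H le_rfl)).trans h
  · have h1 : A.filter (fun a => dep p a ≤ H) = A := by
      apply Finset.filter_true_of_mem
      intro a ha
      exact (hdepA a ha).2
    have h2 := hcount H le_rfl
    rwa [h1] at h2
  · -- burning vertices have good paths
    have hBgp : ∀ v, v ≤ p.length → (∀ j, (par p)^[j] v ∉ A) → gp v := by
      intro v
      induction v using Nat.strong_induction_on with
      | _ v ih =>
        intro hv hB
        rcases Nat.eq_zero_or_pos v with h | h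
        · subst h
          intro j
          left
          exact par_iter_zero p j
        · obtain ⟨h1, h2⟩ := hD v h hv
          have h3 := ih (par p v) h1 (by omega) (fun j => by
            have := hB (j + 1)
            rwa [Function.iterate_succ_apply] at this)
          intro j
          rcases j with _ | j
          · right
            rw [Function.iterate_zero, id]
            by_contra h4
            have h5 := hB 0
            rw [Function.iterate_zero, id, hAmem] at h5
            exact h5 ⟨hv, h, by simpa using h4, h3⟩
          · have := h3 j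
            rwa [← Function.iterate_succ_apply] at this
    have h1 : Brn p A ⊆ (Finset.range (H + 1)).biUnion (fun s => (L s).toFinset) := by
      intro v hv
      rw [mem_Brn] at hv
      rw [Finset.mem_biUnion]
      have h2 := (hch v hv.1).1
      exact ⟨dep p v, Finset.mem_range.2 (by omega),
        List.mem_toFinset.2 (hgpL _ h2 v hv.1 (hBgp v hv.1 hv.2) rfl)⟩
    refine (Finset.card_le_card h1).trans (Finset.card_biUnion_le.trans ?_)
    apply Finset.sum_le_sum
    intro s hs
    refine (List.toFinset_card_le _).trans ?_
    rw [← hLmap s (by have := Finset.mem_range.1 hs; omega), List.length_map]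

end Pool.FF.Helper91
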