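import Pool.Agent.Helper86.FF.Spec

/-! # Firefighter on trees: strategies and protected sets (parts HALLA and HALLB) -/

namespace Pool.FF.Helper91

open Pool.FF

variable {p : List ℕ}

lemma par_zero (p : List ℕ) : par p 0 = 0 := by simp [par]

lemma par_iter_zero (p : List ℕ) (j : ℕ) : (par p)^[j] 0 = 0 := by
  induction j with
  | zero => rfl
  | succ j ih => rw [Function.iterate_succ_apply', ih, par_zero]

lemma par_lt (hD : ∀ v, 1 ≤ v → v ≤ p.length → par p v < v ∧ dep p v = dep p (par p v) + 1)
    {v : ℕ} (h1 : 1 ≤ v) (h2 : v ≤ p.length) (j : ℕ) : (par p)^[j + 1] v < v := by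
  induction j with
  | zero => simpa using (hD v h1 h2).1
  | succ j ih =>
    rw [Function.iterate_succ_apply']
    rcases Nat.eq_zero_or_pos ((par p)^[j + 1] v) with h | h
    · rw [h, par_zero]
      omega
    · exact ((hD _ h (by omega)).1).trans ih

lemma adj_iff (u v : Fin (p.length + 1))
    (hD : ∀ v, 1 ≤ v → v ≤ p.length → par p v < v ∧ dep p v = dep p (par p v) + 1) :
    (codeTree p).Adj u v ↔ (1 ≤ v.1 ∧ par p v.1 = u.1) ∨ (1 ≤ u.1 ∧ par p u.1 = v.1) := by
  have key : ∀ u v : Fin (p.length + 1), (∃ i, ∃ h : i < p.length, v.1 = i + 1 ∧ u.1 = p[i]) ↔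
      (1 ≤ v.1 ∧ par p v.1 = u.1) := by
    intro u v
    constructor
    · rintro ⟨i, h, hv, hu⟩
      refine ⟨by omega, ?_⟩
      rw [par, if_neg (by omega), hv, hu, Nat.add_sub_cancel, List.getD_eq_getElem _ _ h]
    · rintro ⟨h1, h2⟩
      have hv := v.2
      refine ⟨v.1 - 1, by omega, by omega, ?_⟩
      rw [← h2, par, if_neg (by omega), List.getD_eq_getElem _ _ (by omega)]
  unfold codeTree
  rw [SimpleGraph.fromRel_adj, key, key]
  constructor
  · rintro ⟨_, h⟩
    exact h
  · intro h
    refine ⟨?_, h⟩
    rintro rfl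
    rcases h with h | h
    · have := (hD _ h.1 (by omega)).1
      omega
    · have := (hD _ h.1 (by omega)).1
      omega

lemma fire_mono {V : Type} (G : SimpleGraph V) (s : V) (l : List V) {a b : ℕ} (h : a ≤ b) :
    fire G s l a ⊆ fire G s l b := by
  induction h with
  | refl => exact subset_rfl
  | step _ ih => exact ih.trans (fun x hx => Or.inl hx)

lemma mem_Brn {A : Finset ℕ} {v : ℕ} : v ∈ Brn p A ↔ v ≤ p.length ∧ ∀ j, (par p)^[j] v ∉ A := by
  simp only [Brn, Finset.mem_filter, Finset.mem_range]
  constructor
  · rintro ⟨h1, h2⟩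
    exact ⟨by omega, h2⟩
  · rintro ⟨h1, h2⟩
    exact ⟨by omega, h2⟩

theorem hallA (hDEP : S_DEP) : S_HALLA := by
  classical
  intro p hp l hl
  obtain ⟨-, hd0, hD⟩ := hDEP p hp
  -- the set of the protected vertices
  set Ls : Finset ℕ := (l.map Fin.val).toFinset with hLs
  have hmemL : ∀ v : Fin (p.length + 1), v.1 ∈ Ls ↔ v ∈ l := by
    intro v
    rw [hLs, List.mem_toFinset, List.mem_map]
    constructor
    · rintro ⟨w, hw, hwv⟩
      rwa [← Fin.ext hwv]
    · intro h
      exact ⟨v, h, rfl⟩
  have hLle : ∀ a ∈ Ls, a ≤ p.length := by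
    intro a ha
    rw [hLs, List.mem_toFinset, List.mem_map] at ha
    obtain ⟨w, _, rfl⟩ := ha
    have := w.2
    omega
  have h0 : 0 ∉ Ls := by
    intro h
    have h1 : (0 : Fin (p.length + 1)) ∈ l := (hmemL 0).1 (by simpa using h)
    obtain ⟨t, ht, hte⟩ := List.getElem_of_mem h1
    have := hl t ht
    rw [hte] at this
    exact this (fire_mono _ _ _ (Nat.zero_le t) (by simp [fire]))
  -- vertices without protected ancestors burn
  have hburn : ∀ v : ℕ, ∀ hv : v < p.length + 1, (∀ j, (par p)^[j] v ∉ Ls) →
      (⟨v, hv⟩ : Fin (p.length + 1)) ∈ fire (codeTree p) 0 l (dep p v) := by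
    intro v
    induction v using Nat.strong_induction_on with
    | _ v ih =>
      intro hv hA
      rcases Nat.eq_zero_or_pos v with h | h
      · subst h
        rw [hd0]
        simp [fire]
      · obtain ⟨h1, h2⟩ := hD v h (by omega)
        have h3 := ih (par p v) h1 (by omega) (fun j => by
          have := hA (j + 1)
          rwa [Function.iterate_succ_apply] at this)
        rw [h2]
        right
        refine ⟨?_, _, h3, ?_⟩
        · intro h4
          have h5 := List.mem_of_mem_take h4
          have h6 := hA 0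
          rw [Function.iterate_zero, id] at h6
          exact h6 ((hmemL ⟨v, hv⟩).2 h5)
        · rw [adj_iff _ _ hD]
          left
          exact ⟨h, rfl⟩
  set A : Finset ℕ := Ls.filter (fun a => ∀ j, 0 < j → (par p)^[j] a ∉ Ls) with hA
  have hAmem : ∀ a, a ∈ A ↔ a ∈ Ls ∧ ∀ j, 0 < j → (par p)^[j] a ∉ Ls := by
    intro a
    rw [hA, Finset.mem_filter]
  have hA1 : ∀ a ∈ A, 1 ≤ a ∧ a ≤ p.length := by
    intro a ha
    have h1 := ((hAmem a).1 ha).1
    refine ⟨?_, hLle a h1⟩
    rcases Nat.eq_zero_or_pos a with h | h
    · subst h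
      exact absurd h1 h0
    · exact h
  -- the index of a vertex of `A`
  have hidx : ∀ a ∈ A, (l.map Fin.val).idxOf a < dep p a := by
    intro a ha
    obtain ⟨h1, h2⟩ := hA1 a ha
    obtain ⟨h3, h4⟩ := (hAmem a).1 ha
    by_contra hcon
    push Not at hcon
    obtain ⟨h5, h6⟩ := hD a h1 h2
    have h7 := hburn (par p a) (by omega) (fun j => by
      have := h4 (j + 1) (by omega)
      rwa [Function.iterate_succ_apply] at this)
    have h8 : (l.map Fin.val).idxOf a < (l.map Fin.val).length :=
      List.idxOf_lt_length_iff.2 (by rwa [hLs, List.mem_toFinset] at h3)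
    set i := (l.map Fin.val).idxOf a with hi
    have h8' : i < l.length := by simpa using h8
    have h9 : (l.map Fin.val)[i] = a := List.getElem_idxOf h8
    have h10 : (l[i]).1 = a := by
      rw [List.getElem_map] at h9
      exact h9
    have h11 : l[i] ∈ fire (codeTree p) 0 l (dep p a) := by
      rw [h6]
      right
      refine ⟨?_, _, h7, ?_⟩
      · intro h12
        have h13 : a ∈ (l.map Fin.val).take (dep p (par p a) + 1) := by
          rw [← List.map_take, List.mem_map]
          exact ⟨_, h12, h10⟩
        have h14 : a ∈ l.map Fin.val := List.mem_of_mem_take h13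
        have h15 := (List.mem_take_iff_idxOf_lt h14).1 h13
        omega
      · rw [adj_iff _ _ hD]
        left
        rw [h10]
        exact ⟨h1, rfl⟩
    exact hl i h8' (fire_mono _ _ _ hcon h11)
  have hinj : Set.InjOn (fun a => (l.map Fin.val).idxOf a) (A : Set ℕ) := by
    intro a ha b hb hab
    have ha1 : a ∈ l.map Fin.val := by
      have := ((hAmem a).1 ha).1
      rwa [hLs, List.mem_toFinset] at this
    have hb1 : b ∈ l.map Fin.val := by
      have := ((hAmem b).1 hb).1
      rwa [hLs, List.mem_toFinset] at this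
    exact (List.idxOf_inj ha1).1 hab
  refine ⟨A, ⟨hA1, ?_⟩, ?_, ?_⟩
  · intro t
    have h1 : (A.filter (fun a => dep p a ≤ t)).card ≤ (Finset.range t).card := by
      apply Finset.card_le_card_of_injOn (fun a => (l.map Fin.val).idxOf a)
      · intro a ha
        rw [Finset.coe_filter] at ha
        rw [Finset.coe_range, Set.mem_Iio]
        exact (hidx a ha.1).trans_le ha.2
      · intro a ha b hb hab
        rw [Finset.coe_filter] at ha hb
        exact hinj ha.1 hb.1 hab
    simpa using h1
  · have h1 : A.card ≤ (Finset.range l.length).card := by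
      apply Finset.card_le_card_of_injOn (fun a => (l.map Fin.val).idxOf a)
      · intro a ha
        rw [Finset.coe_range, Set.mem_Iio]
        have ha1 : a ∈ l.map Fin.val := by
          have := ((hAmem a).1 ha).1
          rwa [hLs, List.mem_toFinset] at this
        have := List.idxOf_lt_length_iff.2 ha1
        simpa using this
      · exact hinj
    simpa using h1
  · -- the burned vertices
    have htop : ∀ w, w ∈ Ls → ∃ j, (par p)^[j] w ∈ A := by
      intro w
      induction w using Nat.strong_induction_on with
      | _ w ih =>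
        intro hw
        by_cases h : ∀ j, 0 < j → (par p)^[j] w ∉ Ls
        · exact ⟨0, (hAmem w).2 ⟨hw, h⟩⟩
        · push Not at h
          obtain ⟨j, hj, hj2⟩ := h
          have hw1 : 1 ≤ w := by
            rcases Nat.eq_zero_or_pos w with h | h
            · subst h
              exact absurd hw h0
            · exact h
          obtain ⟨j', rfl⟩ : ∃ j', j = j' + 1 := ⟨j - 1, by omega⟩
          obtain ⟨k, hk⟩ := ih _ (par_lt hD hw1 (hLle w hw) j') hj2
          refine ⟨k + (j' + 1), ?_⟩
          rw [Function.iterate_add_apply]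
          exact hk
    have hsub : ((Brn p A : Finset ℕ) : Set ℕ) ⊆ Fin.val '' (burned (codeTree p) 0 l) := by
      intro v hv
      rw [Finset.mem_coe, mem_Brn] at hv
      obtain ⟨hv1, hv2⟩ := hv
      refine ⟨⟨v, by omega⟩, ⟨dep p v, hburn v (by omega) ?_⟩, rfl⟩
      intro j hj
      obtain ⟨k, hk⟩ := htop _ hj
      rw [← Function.iterate_add_apply] at hk
      exact hv2 _ hk
    have h1 := Set.ncard_le_ncard hsub (Set.toFinite _)
    rw [Set.ncard_coe_finset, Set.ncard_image_of_injective _ Fin.val_injective] at h1
    exact h1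

theorem hallB (hDEP : S_DEP) : S_HALLB := by
  classical
  intro p hp A hA
  obtain ⟨-, hd0, hD⟩ := hDEP p hp
  obtain ⟨hA1, hA2⟩ := hA
  -- sort by depth
  set L : List ℕ := A.toList.insertionSort (fun a b => dep p a ≤ dep p b) with hL
  have hperm : L.Perm A.toList := List.perm_insertionSort _ _
  have hmem : ∀ a, a ∈ L ↔ a ∈ A := by
    intro a
    rw [hperm.mem_iff, Finset.mem_toList]
  have hlen : L.length = A.card := by rw [hperm.length_eq, Finset.length_toList]
  have hnd : L.Nodup := hperm.nodup_iff.2 (Finset.nodup_toList A)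
  have : Std.Total (fun a b : ℕ => dep p a ≤ dep p b) := ⟨fun a b => le_total _ _⟩
  have : IsTrans ℕ (fun a b : ℕ => dep p a ≤ dep p b) := ⟨fun a b c h1 h2 => le_trans h1 h2⟩
  have hsort : L.Pairwise (fun a b => dep p a ≤ dep p b) := List.pairwise_insertionSort _ _
  have hidx : ∀ i, ∀ h : i < L.length, i + 1 ≤ dep p L[i] := by
    intro i h
    have h1 := hA2 (dep p L[i])
    have h2 : (L.take (i + 1)).toFinset ⊆ A.filter (fun a => dep p a ≤ dep p L[i]) := by
      intro a ha
      rw [List.mem_toFinset, List.mem_take_iff_getElem] at ha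
      obtain ⟨k, hk, rfl⟩ := ha
      rw [Finset.mem_filter]
      refine ⟨(hmem _).1 (List.getElem_mem _), ?_⟩
      rcases Nat.lt_or_ge k i with h3 | h3
      · exact (List.pairwise_iff_getElem.1 hsort) k i (by omega) h h3
      · have : k = i := by omega
        subst this
        exact le_rfl
    have h3 := Finset.card_le_card h2
    rw [List.toFinset_card_of_nodup (hnd.sublist (List.take_sublist _ _)), List.length_take] at h3
    omega
  set f : ℕ → Fin (p.length + 1) := fun a => if h : a < p.length + 1 then ⟨a, h⟩ else 0 with hf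
  have hfv : ∀ a ∈ A, (f a).1 = a := by
    intro a ha
    have := (hA1 a ha).2
    simp only [hf]
    rw [dif_pos (by omega)]
  set l : List (Fin (p.length + 1)) := L.map f with hl
  have hfire : ∀ t, ∀ v : Fin (p.length + 1), v ∈ fire (codeTree p) 0 l t →
      dep p v.1 ≤ t ∧ v.1 ∈ Brn p A := by
    intro t
    induction t with
    | zero =>
      intro v hv
      have hv0 : v = 0 := by simpa [fire] using hv
      subst hv0
      refine ⟨by simp [hd0], mem_Brn.2 ⟨by simp, ?_⟩⟩
      intro j hj
      rw [Fin.val_zero, par_iter_zero] at hj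
      have := (hA1 0 hj).1
      omega
    | succ t ih =>
      intro v hv
      rcases hv with hv | ⟨hv1, u, hu, huv⟩
      · obtain ⟨h1, h2⟩ := ih v hv
        exact ⟨by omega, h2⟩
      · obtain ⟨h1, h2⟩ := ih u hu
        rw [mem_Brn] at h2
        rw [adj_iff _ _ hD] at huv
        have hv2 := v.2
        have hu2 := u.2
        rcases huv with ⟨h3, h4⟩ | ⟨h3, h4⟩
        · -- v is a child of u
          obtain ⟨-, h5⟩ := hD v.1 h3 (by omega)
          rw [h4] at h5
          refine ⟨by omega, mem_Brn.2 ⟨by omega, ?_⟩⟩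
          intro j
          rcases j with _ | j
          · intro h6
            rw [Function.iterate_zero, id] at h6
            obtain ⟨i, hi, hie⟩ := List.getElem_of_mem ((hmem _).2 h6)
            have h7 := hidx i hi
            rw [hie] at h7
            apply hv1
            rw [List.mem_take_iff_getElem]
            refine ⟨i, by rw [hl, List.length_map]; omega, ?_⟩
            apply Fin.ext
            simp only [hl, List.getElem_map]
            rw [hie, hfv _ h6]
          · rw [Function.iterate_succ_apply, h4]
            exact h2.2 j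
        · -- v is the parent of u
          obtain ⟨h6, h5⟩ := hD u.1 h3 (by omega)
          rw [h4] at h5 h6
          refine ⟨by omega, mem_Brn.2 ⟨by omega, ?_⟩⟩
          intro j
          have := h2.2 (j + 1)
          rwa [Function.iterate_succ_apply, h4] at this
  refine ⟨l, ?_, ?_, ?_⟩
  · intro t ht h
    have h1 := (mem_Brn.1 (hfire t _ h).2).2 0
    have ht' : t < L.length := by simpa [hl] using ht
    have h2 : L[t] ∈ A := (hmem _).1 (List.getElem_mem _)
    apply h1
    rw [Function.iterate_zero, id]
    simp only [hl, List.getElem_map]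
    rwa [hfv _ h2]
  · rw [hl, List.length_map, hlen]
  · have hsub : Fin.val '' (burned (codeTree p) 0 l) ⊆ ((Brn p A : Finset ℕ) : Set ℕ) := by
      rintro _ ⟨v, ⟨t, ht⟩, rfl⟩
      exact (hfire t v ht).2
    have h1 := Set.ncard_le_ncard hsub (Finset.finite_toSet _)
    rw [Set.ncard_coe_finset, Set.ncard_image_of_injective _ Fin.val_injective] at h1
    exact h1

end Pool.FF.Helper91
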