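import Pool.Agent.Helper91.FF.HALL

/-! # Firefighter on trees: moving protected sets (parts PUSH and EXCH) -/

namespace Pool.FF.Helper91

open Pool.FF

variable {p : List ℕ}

/-- The topmost elements of `S`. -/
noncomputable def top (p : List ℕ) (S : Finset ℕ) : Finset ℕ :=
  haveI := Classical.decPred (fun a => ∀ j, 0 < j → (par p)^[j] a ∉ S)
  S.filter (fun a => ∀ j, 0 < j → (par p)^[j] a ∉ S)

lemma mem_top {S : Finset ℕ} {a : ℕ} : a ∈ top p S ↔ a ∈ S ∧ ∀ j, 0 < j → (par p)^[j] a ∉ S := by
  simp only [top, Finset.mem_filter]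

lemma exists_top (hD : ∀ v, 1 ≤ v → v ≤ p.length → par p v < v ∧ dep p v = dep p (par p v) + 1)
    {S : Finset ℕ} (hS : ∀ a ∈ S, 1 ≤ a ∧ a ≤ p.length) :
    ∀ w, w ∈ S → ∃ j, (par p)^[j] w ∈ top p S := by
  intro w
  induction w using Nat.strong_induction_on with
  | _ w ih =>
    intro hw
    by_cases h : ∀ j, 0 < j → (par p)^[j] w ∉ S
    · exact ⟨0, mem_top.2 ⟨hw, h⟩⟩
    · push Not at h
      obtain ⟨j, hj, hj2⟩ := h
      obtain ⟨hw1, hw2⟩ := hS w hw
      obtain ⟨j', rfl⟩ : ∃ j', j = j' + 1 := ⟨j - 1, by omega⟩
      obtain ⟨k, hk⟩ := ih _ (par_lt hD hw1 hw2 j') hj2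
      refine ⟨k + (j' + 1), ?_⟩
      rw [Function.iterate_add_apply]
      exact hk

lemma par_le (hD : ∀ v, 1 ≤ v → v ≤ p.length → par p v < v ∧ dep p v = dep p (par p v) + 1)
    {v : ℕ} (hv : v ≤ p.length) (j : ℕ) : (par p)^[j] v ≤ p.length := by
  rcases Nat.eq_zero_or_pos v with h | h
  · subst h
    rw [par_iter_zero]
    omega
  · rcases j with _ | j
    · exact hv
    · exact ((par_lt hD h hv j).trans_le hv).le

lemma dep_iter (hd0 : dep p 0 = 0)
    (hD : ∀ v, 1 ≤ v → v ≤ p.length → par p v < v ∧ dep p v = dep p (par p v) + 1)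
    {v : ℕ} (hv : v ≤ p.length) (j : ℕ) : dep p ((par p)^[j] v) = dep p v - j := by
  induction j with
  | zero => simp
  | succ j ih =>
    rw [Function.iterate_succ_apply']
    rcases Nat.eq_zero_or_pos ((par p)^[j] v) with h | h
    · rw [h, hd0] at ih
      rw [h, par_zero, hd0]
      omega
    · have := (hD _ h (par_le hD hv j)).2
      omega

lemma dep_pos (hD : ∀ v, 1 ≤ v → v ≤ p.length → par p v < v ∧ dep p v = dep p (par p v) + 1)
    {v : ℕ} (h : 1 ≤ v) (hv : v ≤ p.length) : 1 ≤ dep p v := by
  have := (hD _ h hv).2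
  omega

lemma exists_enum (A : Finset ℕ) (hA2 : ∀ t, (A.filter (fun a => dep p a ≤ t)).card ≤ t) :
    ∃ L : List ℕ, L.Nodup ∧ (∀ a, a ∈ L ↔ a ∈ A) ∧ L.length = A.card ∧
      L.Pairwise (fun a b => dep p a ≤ dep p b) ∧ ∀ i, ∀ h : i < L.length, i + 1 ≤ dep p L[i] := by
  classical
  set L : List ℕ := A.toList.insertionSort (fun a b => dep p a ≤ dep p b) with hL
  have hperm : L.Perm A.toList := List.perm_insertionSort _ _
  have hmem : ∀ a, a ∈ L ↔ a ∈ A := by
    intro a
    rw [hperm.mem_iff, Finset.mem_toList]
  have hlen : L.length = A.card := by rw [hperm.length_eq, Finset.length_toList]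
  have hnd : L.Nodup := hperm.nodup_iff.2 (Finset.nodup_toList A)
  have : Std.Total (fun a b : ℕ => dep p a ≤ dep p b) := ⟨fun a b => le_total _ _⟩
  have : IsTrans ℕ (fun a b : ℕ => dep p a ≤ dep p b) := ⟨fun a b c h1 h2 => le_trans h1 h2⟩
  have hsort : L.Pairwise (fun a b => dep p a ≤ dep p b) := List.pairwise_insertionSort _ _
  refine ⟨L, hnd, hmem, hlen, hsort, ?_⟩
  intro i h
  have h1 := hA2 (dep p L[i])
  have h2 : (L.take (i + 1)).toFinset ⊆ A.filter (fun a => dep p a ≤ dep p L[i]) := by
    intro a ha
    rw [List.mem_toFinset, List.mem_take_iff_getElem] at ha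
    obtain ⟨k, hk, rfl⟩ := ha
    rw [Finset.mem_filter]
    refine ⟨(hmem _).1 (List.getElem_mem _), ?_⟩
    rcases Nat.lt_or_ge k i with h3 | h3
    · exact (List.pairwise_iff_getElem.1 hsort) k i (by omega) h h3
    · have : k = i := by omega
      subst this
      exact le_rfl
  have h3 := Finset.card_le_card h2
  rw [List.toFinset_card_of_nodup (hnd.sublist (List.take_sublist _ _)), List.length_take] at h3
  omega

theorem push (hDEP : S_DEP) : S_PUSH := by
  classical
  intro p hp A ℓ hA hcard
  obtain ⟨-, hd0, hD⟩ := hDEP p hp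
  obtain ⟨hA1, hA2⟩ := hA
  obtain ⟨L, hnd, hmem, hlen, hsort, hidx⟩ := exists_enum (p := p) A hA2
  set g : ℕ → ℕ := fun i => (par p)^[dep p (L.getD i 0) - (i + 1)] (L.getD i 0) with hg
  have hLi : ∀ i, ∀ h : i < L.length, L.getD i 0 = L[i] := fun i h => List.getD_eq_getElem _ _ h
  have hgdep : ∀ i, i < L.length → dep p (g i) = i + 1 ∧ 1 ≤ g i ∧ g i ≤ p.length := by
    intro i hi
    have h1 := hidx i hi
    obtain ⟨h2, h3⟩ := hA1 _ ((hmem _).1 (List.getElem_mem hi))
    have h4 : dep p (g i) = i + 1 := by
      simp only [hg]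
      rw [hLi i hi, dep_iter hd0 hD h3]
      omega
    refine ⟨h4, ?_, ?_⟩
    · rcases Nat.eq_zero_or_pos (g i) with h | h
      · rw [h, hd0] at h4
        omega
      · exact h
    · simp only [hg]
      rw [hLi i hi]
      exact par_le hD h3 _
  set A1 : Finset ℕ := (Finset.range L.length).image g with hA1def
  have hA1S : ∀ a ∈ A1, 1 ≤ a ∧ a ≤ p.length := by
    intro a ha
    rw [hA1def, Finset.mem_image] at ha
    obtain ⟨i, hi, rfl⟩ := ha
    exact (hgdep i (Finset.mem_range.1 hi)).2
  refine ⟨top p A1, ⟨?_, ?_, ?_⟩, ?_⟩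
  · intro a ha
    have h1 := (mem_top.1 ha).1
    obtain ⟨h2, h3⟩ := hA1S a h1
    rw [hA1def, Finset.mem_image] at h1
    obtain ⟨i, hi, rfl⟩ := h1
    have hi' := Finset.mem_range.1 hi
    refine ⟨h2, h3, ?_⟩
    rw [(hgdep i hi').1]
    omega
  · intro a ha b hb hab
    have h1 := (mem_top.1 (Finset.mem_coe.1 ha)).1
    have h2 := (mem_top.1 (Finset.mem_coe.1 hb)).1
    rw [hA1def, Finset.mem_image] at h1 h2
    obtain ⟨i, hi, rfl⟩ := h1
    obtain ⟨j, hj, rfl⟩ := h2
    rw [(hgdep i (Finset.mem_range.1 hi)).1, (hgdep j (Finset.mem_range.1 hj)).1] at hab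
    rw [Nat.add_right_cancel hab]
  · intro a ha j hj h
    exact (mem_top.1 ha).2 j hj (mem_top.1 h).1
  · apply Finset.card_le_card
    intro v hv
    rw [mem_Brn] at hv ⊢
    refine ⟨hv.1, ?_⟩
    intro j hj
    obtain ⟨i, hi, hie⟩ := List.getElem_of_mem ((hmem _).2 hj)
    have h1 : g i ∈ A1 := by
      rw [hA1def]
      exact Finset.mem_image_of_mem _ (Finset.mem_range.2 hi)
    obtain ⟨k, hk⟩ := exists_top hD hA1S _ h1
    simp only [hg] at hk
    rw [hLi i hi, hie, ← Function.iterate_add_apply, ← Function.iterate_add_apply] at hk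
    exact hv.2 _ hk

/-- The subtree of `v`. -/
noncomputable def sub (p : List ℕ) (v : ℕ) : Finset ℕ :=
  haveI := Classical.decPred (fun u => ∃ j, (par p)^[j] u = v)
  (Finset.range (p.length + 1)).filter (fun u => ∃ j, (par p)^[j] u = v)

lemma mem_sub {v u : ℕ} : u ∈ sub p v ↔ u ≤ p.length ∧ ∃ j, (par p)^[j] u = v := by
  simp only [sub, Finset.mem_filter, Finset.mem_range]
  constructor
  · rintro ⟨h1, h2⟩
    exact ⟨by omega, h2⟩
  · rintro ⟨h1, h2⟩
    exact ⟨by omega, h2⟩

lemma hall_mono {A B : Finset ℕ} (hA : Hall p A) (h : B ⊆ A) : Hall p B := by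
  refine ⟨fun a ha => hA.1 a (h ha), fun t => ?_⟩
  exact (Finset.card_le_card (Finset.filter_subset_filter _ h)).trans (hA.2 t)

theorem exch (hDEP : S_DEP) : S_EXCH := by
  classical
  intro p hp k ℓ hk hex
  obtain ⟨-, hd0, hD⟩ := hDEP p hp
  obtain ⟨A0, hA0, hA0k⟩ := hex
  -- a minimal antichain
  obtain ⟨A, hAH, hAmin, hAanti⟩ : ∃ A, Hall p A ∧ (∀ B, Hall p B → (Brn p A).card ≤ (Brn p B).card) ∧
      ∀ a ∈ A, ∀ j, 0 < j → (par p)^[j] a ∉ A := by
    have hP : ∃ m, ∃ A, Hall p A ∧ (Brn p A).card = m := ⟨_, A0, hA0, rfl⟩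
    obtain ⟨A, hA, hAm⟩ := Nat.find_spec hP
    refine ⟨top p A, hall_mono hA (fun a ha => (mem_top.1 ha).1), ?_, ?_⟩
    · intro B hB
      have h1 := Nat.find_min' hP ⟨B, hB, rfl⟩
      rw [← hAm] at h1
      refine le_trans (Finset.card_le_card ?_) h1
      intro v hv
      rw [mem_Brn] at hv ⊢
      refine ⟨hv.1, fun j hj => ?_⟩
      obtain ⟨k, hk⟩ := exists_top hD hA.1 _ hj
      rw [← Function.iterate_add_apply] at hk
      exact hv.2 _ hk
    · intro a ha j hj h
      exact (mem_top.1 ha).2 j hj (mem_top.1 h).1
  by_cases hcard : A.card ≤ ℓ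
  · exact ⟨A, hAH, hcard, by have := hAmin A0 hA0; omega⟩
  push Not at hcard
  obtain ⟨L, hnd, hmem, hlen, hsort, hidx⟩ := exists_enum (p := p) A hAH.2
  -- the subtrees of the first vertices are large
  have hbig : ∀ i, ∀ hi : i < ℓ, ℓ - i ≤ (sub p (L[i]'(by omega))).card := by
    intro i hi
    have hiL : i < L.length := by omega
    have hN : L.length - 1 < L.length := by omega
    set z := L[L.length - 1]'hN with hz
    have hzA : z ∈ A := (hmem _).1 (List.getElem_mem hN)
    obtain ⟨hz1, hz2⟩ := hAH.1 z hzA
    have hzd : L.length ≤ dep p z := by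
      have := hidx (L.length - 1) hN
      rw [← hz] at this
      omega
    set e := dep p z - (i + 1) with he
    set a := (par p)^[e] z with ha
    have had : dep p a = i + 1 := by
      rw [ha, dep_iter hd0 hD hz2]
      omega
    have ha1 : 1 ≤ a := by
      rcases Nat.eq_zero_or_pos a with h | h
      · rw [h, hd0] at had
        omega
      · exact h
    have ha2 : a ≤ p.length := par_le hD hz2 _
    set w := L[i]'hiL with hw
    have hwA : w ∈ A := (hmem _).1 (List.getElem_mem hiL)
    set A' : Finset ℕ := insert a (A.erase w) with hA'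
    have hA'H : Hall p A' := by
      refine ⟨?_, ?_⟩
      · intro b hb
        rw [hA', Finset.mem_insert] at hb
        rcases hb with rfl | hb
        · exact ⟨ha1, ha2⟩
        · exact hAH.1 b (Finset.mem_of_mem_erase hb)
      · intro t
        rcases Nat.lt_or_ge t (i + 1) with h1 | h1
        · refine le_trans (Finset.card_le_card ?_) (hAH.2 t)
          intro b hb
          rw [Finset.mem_filter, hA', Finset.mem_insert] at hb
          rw [Finset.mem_filter]
          rcases hb with ⟨rfl | hb, hb2⟩
          · omega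
          · exact ⟨Finset.mem_of_mem_erase hb, hb2⟩
        · rcases Nat.lt_or_ge t (dep p w) with h2 | h2
          · have h3 : A'.filter (fun b => dep p b ≤ t) ⊆ insert a (L.take i).toFinset := by
              intro b hb
              rw [Finset.mem_filter, hA', Finset.mem_insert] at hb
              rw [Finset.mem_insert]
              rcases hb with ⟨rfl | hb, hb2⟩
              · exact Or.inl rfl
              · right
                have hb3 := (hmem b).2 (Finset.mem_of_mem_erase hb)
                obtain ⟨m, hm, hme⟩ := List.getElem_of_mem hb3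
                rw [List.mem_toFinset, List.mem_take_iff_getElem]
                refine ⟨m, ?_, hme⟩
                have : m < i := by
                  by_contra hcon
                  push Not at hcon
                  have h4 : dep p w ≤ dep p b := by
                    rcases Nat.eq_or_lt_of_le hcon with h5 | h5
                    · subst h5
                      rw [← hme]
                    · rw [← hme]
                      exact (List.pairwise_iff_getElem.1 hsort) i m hiL hm h5
                  omega
                omega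
            have h4 := (Finset.card_le_card h3).trans (Finset.card_insert_le _ _)
            have h5 : (L.take i).toFinset.card ≤ i := by
              refine (List.toFinset_card_le _).trans ?_
              rw [List.length_take]
              omega
            omega
          · have h3 : A'.filter (fun b => dep p b ≤ t) ⊆
                insert a ((A.filter (fun b => dep p b ≤ t)).erase w) := by
              intro b hb
              rw [Finset.mem_filter, hA', Finset.mem_insert] at hb
              rw [Finset.mem_insert]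
              rcases hb with ⟨rfl | hb, hb2⟩
              · exact Or.inl rfl
              · right
                rw [Finset.mem_erase] at hb ⊢
                exact ⟨hb.1, Finset.mem_filter.2 ⟨hb.2, hb2⟩⟩
            have h4 := (Finset.card_le_card h3).trans (Finset.card_insert_le _ _)
            have h5 : w ∈ A.filter (fun b => dep p b ≤ t) := Finset.mem_filter.2 ⟨hwA, h2⟩
            have h6 := Finset.card_erase_of_mem h5
            have h7 := Finset.card_pos.2 ⟨w, h5⟩
            have h8 := hAH.2 t
            omega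
    -- the path
    set P : Finset ℕ := (Finset.range e).image (fun s => (par p)^[s + 1] z) with hP
    have hPcard : P.card = e := by
      rw [hP, Finset.card_image_of_injOn, Finset.card_range]
      intro s hs s' hs' hss
      have hs2 := Finset.mem_range.1 (Finset.mem_coe.1 hs)
      have hs2' := Finset.mem_range.1 (Finset.mem_coe.1 hs')
      have h1 := congrArg (dep p) hss
      simp only at h1
      rw [dep_iter hd0 hD hz2, dep_iter hd0 hD hz2] at h1
      omega
    have hPB : P ⊆ Brn p A := by
      intro u hu
      rw [hP, Finset.mem_image] at hu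
      obtain ⟨s, hs, rfl⟩ := hu
      rw [mem_Brn]
      refine ⟨par_le hD hz2 _, fun j => ?_⟩
      rw [← Function.iterate_add_apply]
      exact hAanti z hzA _ (by omega)
    have hBrn : Brn p A' ⊆ (Brn p A \ P) ∪ sub p w := by
      intro u hu
      rw [mem_Brn] at hu
      obtain ⟨hu1, hu2⟩ := hu
      rw [Finset.mem_union]
      by_cases h1 : u ∈ Brn p A
      · left
        rw [Finset.mem_sdiff]
        refine ⟨h1, fun h2 => ?_⟩
        rw [hP, Finset.mem_image] at h2
        obtain ⟨s, hs, rfl⟩ := h2
        have hs' := Finset.mem_range.1 hs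
        apply hu2 (e - (s + 1))
        rw [← Function.iterate_add_apply, show e - (s + 1) + (s + 1) = e by omega, hA']
        exact Finset.mem_insert_self _ _
      · right
        rw [mem_sub]
        refine ⟨hu1, ?_⟩
        by_contra h2
        push Not at h2
        apply h1
        rw [mem_Brn]
        refine ⟨hu1, fun j hj => ?_⟩
        apply hu2 j
        rw [hA', Finset.mem_insert, Finset.mem_erase]
        right
        exact ⟨h2 j, hj⟩
    have h1 := hAmin A' hA'H
    have h2 := (Finset.card_le_card hBrn).trans (Finset.card_union_le _ _)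
    have h3 := Finset.card_sdiff_of_subset hPB
    have h4 := Finset.card_le_card hPB
    omega
  -- the first vertices
  set B : Finset ℕ := (L.take ℓ).toFinset with hB
  have hBA : B ⊆ A := by
    intro b hb
    rw [hB, List.mem_toFinset] at hb
    exact (hmem b).1 (List.mem_of_mem_take hb)
  refine ⟨B, hall_mono hAH hBA, ?_, ?_⟩
  · rw [hB]
    refine (List.toFinset_card_le _).trans ?_
    rw [List.length_take]
    omega
  · have hdisj : ∀ a ∈ A, ∀ b ∈ A, a ≠ b → Disjoint (sub p a) (sub p b) := by
      intro a ha b hb hab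
      rw [Finset.disjoint_left]
      intro u hu1 hu2
      rw [mem_sub] at hu1 hu2
      obtain ⟨-, j, hj⟩ := hu1
      obtain ⟨-, j', hj'⟩ := hu2
      rcases lt_trichotomy j j' with h | h | h
      · have : (par p)^[j' - j] a = b := by
          rw [← hj, ← Function.iterate_add_apply, show j' - j + j = j' by omega, hj']
        exact hAanti a ha _ (by omega) (this ▸ hb)
      · subst h
        exact hab (hj.symm.trans hj')
      · have : (par p)^[j - j'] b = a := by
          rw [← hj', ← Function.iterate_add_apply, show j - j' + j' = j by omega, hj]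
        exact hAanti b hb _ (by omega) (this ▸ ha)
    set U : Finset ℕ := (Finset.range ℓ).biUnion (fun i => sub p (L.getD i 0)) with hU
    have hLi : ∀ i, ∀ h : i < L.length, L.getD i 0 = L[i] := fun i h => List.getD_eq_getElem _ _ h
    have hUcard : U.card = ∑ i ∈ Finset.range ℓ, (sub p (L.getD i 0)).card := by
      rw [hU, Finset.card_biUnion]
      intro i hi j hj hij
      have hi' := Finset.mem_range.1 hi
      have hj' := Finset.mem_range.1 hj
      change Disjoint (sub p (L.getD i 0)) (sub p (L.getD j 0))
      rw [hLi i (by omega), hLi j (by omega)]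
      apply hdisj _ ((hmem _).1 (List.getElem_mem _)) _ ((hmem _).1 (List.getElem_mem _))
      intro h
      exact hij ((List.Nodup.getElem_inj_iff hnd).1 h)
    have hsum : ∑ i ∈ Finset.range ℓ, (ℓ - i) ≤ U.card := by
      rw [hUcard]
      apply Finset.sum_le_sum
      intro i hi
      have hi' := Finset.mem_range.1 hi
      rw [hLi i (by omega)]
      exact hbig i hi'
    have hgauss : 2 * ∑ i ∈ Finset.range ℓ, (ℓ - i) = ℓ * (ℓ + 1) := by
      clear hk hbig hsum hUcard hU U hB B hBA hcard
      induction ℓ with
      | zero => simp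
      | succ n ih =>
        rw [Finset.sum_range_succ']
        have : ∑ i ∈ Finset.range n, (n + 1 - (i + 1)) = ∑ i ∈ Finset.range n, (n - i) := by
          apply Finset.sum_congr rfl
          intro i _
          omega
        rw [this]
        have h2 : (n + 1) * (n + 1 + 1) = n * (n + 1) + 2 * (n + 1) := by ring
        omega
    have hUdisj : Disjoint (Brn p B) U := by
      rw [Finset.disjoint_left]
      intro u hu1 hu2
      rw [hU, Finset.mem_biUnion] at hu2
      obtain ⟨i, hi, hu2⟩ := hu2
      have hi' := Finset.mem_range.1 hi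
      rw [hLi i (by omega), mem_sub] at hu2
      obtain ⟨-, j, hj⟩ := hu2
      rw [mem_Brn] at hu1
      apply hu1.2 j
      rw [hj, hB, List.mem_toFinset, List.mem_take_iff_getElem]
      exact ⟨i, by omega, rfl⟩
    have hsub : Brn p B ∪ U ⊆ Finset.range (p.length + 1) := by
      intro u hu
      rw [Finset.mem_range]
      rw [Finset.mem_union] at hu
      rcases hu with hu | hu
      · have := (mem_Brn.1 hu).1
        omega
      · rw [hU, Finset.mem_biUnion] at hu
        obtain ⟨i, hi, hu⟩ := hu
        have := (mem_sub.1 hu).1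
        omega
    have h1 := Finset.card_le_card hsub
    rw [Finset.card_union_of_disjoint hUdisj, Finset.card_range] at h1
    omega

end Pool.FF.Helper91
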