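import Pool.Agent.Helper91.FF.PUSH

/-! # Firefighter on trees: unfolded trees (part UNF) -/

namespace Pool.FF.Helper91

open Pool.FF

section

variable {D : Type}

/-- The parents of a level. -/
def qq (ch : D → List D) : ℕ → List D → List ℕ
  | _, [] => []
  | m, x :: l => (ch x).map (fun _ => m) ++ qq ch (m + 1) l

lemma qq_eq (ch : D → List D) (l : List D) : ∀ m n : ℕ,
    (l.zipIdx n).flatMap (fun x => (ch x.1).map (fun _ => m + x.2)) = qq ch (m + n) l := by
  induction l with
  | nil => intro m n; simp [qq]
  | cons x l ih =>
    intro m n
    rw [List.zipIdx_cons, List.flatMap_cons, ih m (n + 1)]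
    rfl

lemma qq_length (ch : D → List D) (l : List D) : ∀ m : ℕ,
    (qq ch m l).length = (l.flatMap ch).length := by
  induction l with
  | nil => intro m; simp [qq]
  | cons x l ih =>
    intro m
    rw [qq, List.length_append, List.length_map, ih, List.flatMap_cons, List.length_append]

lemma qq_mem (ch : D → List D) (l : List D) : ∀ m : ℕ, ∀ x ∈ qq ch m l, m ≤ x ∧ x < m + l.length := by
  induction l with
  | nil => intro m x hx; simp [qq] at hx
  | cons y l ih =>
    intro m x hx
    rw [qq, List.mem_append, List.mem_map] at hx
    rw [List.length_cons]
    rcases hx with ⟨_, _, rfl⟩ | hx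
    · omega
    · have := ih _ _ hx
      omega

lemma qq_children (ch : D → List D) (l : List D) : ∀ (m k : ℕ) (hk : k < l.length),
    ∃ ks : List ℕ, ks.Nodup ∧ (∀ i, i ∈ ks ↔ (qq ch m l)[i]? = some (m + k)) ∧
      ks.map (fun i => (l.flatMap ch)[i]?) = (ch l[k]).map some := by
  induction l with
  | nil => intro m k hk; simp at hk
  | cons x l ih =>
    intro m k hk
    rcases k with _ | k
    · refine ⟨List.range (ch x).length, List.nodup_range, ?_, ?_⟩
      · intro i
        rw [List.mem_range, qq]
        rcases Nat.lt_or_ge i (ch x).length with h | h
        · rw [List.getElem?_append_left (by simpa using h), List.getElem?_map,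
            List.getElem?_eq_getElem h]
          simpa using h
        · rw [List.getElem?_append_right (by simpa using h), List.length_map]
          constructor
          · intro h2
            omega
          · intro h2
            have h3 := List.mem_of_getElem? h2
            have := (qq_mem ch l _ _ h3).1
            omega
      · rw [List.getElem_cons_zero]
        apply List.ext_getElem
        · simp
        · intro i h1 h2
          have h3 : i < (ch x).length := by simpa using h2
          rw [List.getElem_map, List.getElem_map, List.getElem_range, List.flatMap_cons,
            List.getElem?_append_left h3, List.getElem?_eq_getElem h3]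
    · obtain ⟨ks, h1, h2, h3⟩ := ih (m + 1) k (by simpa using hk)
      refine ⟨ks.map (fun i => (ch x).length + i), ?_, ?_, ?_⟩
      · exact h1.map (fun a b h => by simpa using h)
      · intro i
        rw [List.mem_map, qq]
        constructor
        · rintro ⟨j, hj, rfl⟩
          rw [List.getElem?_append_right (by simp), List.length_map, Nat.add_sub_cancel_left,
            (h2 j).1 hj]
          congr 1
          omega
        · intro h
          rcases Nat.lt_or_ge i (ch x).length with h4 | h4
          · rw [List.getElem?_append_left (by simpa using h4), List.getElem?_map,
              List.getElem?_eq_getElem h4] at h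
            simp at h
          · rw [List.getElem?_append_right (by simpa using h4), List.length_map] at h
            refine ⟨i - (ch x).length, (h2 _).2 ?_, by omega⟩
            rw [h]
            congr 1
            omega
      · rw [List.getElem_cons_succ, ← h3, List.map_map]
        apply List.map_congr_left
        intro i _
        rw [Function.comp_apply, List.flatMap_cons, List.getElem?_append_right (by simp),
          Nat.add_sub_cancel_left]

end

lemma par_append_left {p q : List ℕ} {v : ℕ} (hv : v ≤ p.length) : par (p ++ q) v = par p v := by
  unfold par
  split_ifs with h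
  · rfl
  · rw [List.getD_append _ _ _ _ (by omega)]

lemma dep_append_left (hDEP : S_DEP) {p q : List ℕ} (hp : IsTreeCode p)
    (hpq : IsTreeCode (p ++ q)) {v : ℕ} (hv : v ≤ p.length) : dep (p ++ q) v = dep p v := by
  obtain ⟨-, h0, hD⟩ := hDEP p hp
  obtain ⟨-, h0', hD'⟩ := hDEP _ hpq
  induction v using Nat.strong_induction_on with
  | _ v ih =>
    rcases Nat.eq_zero_or_pos v with h | h
    · subst h
      rw [h0, h0']
    · have h1 := hD' v h (by rw [List.length_append]; omega)
      have h2 := hD v h hv
      rw [par_append_left hv] at h1
      rw [h1.2, h2.2, ih _ h1.1 (by omega)]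

theorem unf_thm (hDEP : S_DEP) : S_UNF := by
  intro D ch r H
  -- the invariant
  have key : ∀ t, ∃ all : List D, all.length = (unf ch r t).2.2.length + 1 ∧
      (unf ch r t).2.1 + (unf ch r t).1.length = (unf ch r t).2.2.length + 1 ∧
      all.drop (unf ch r t).2.1 = (unf ch r t).1 ∧
      IsTreeCode (unf ch r t).2.2 ∧
      all.getD 0 r = r ∧
      (∀ v ≤ (unf ch r t).2.2.length, dep (unf ch r t).2.2 v ≤ t ∧
        (dep (unf ch r t).2.2 v < t ↔ v < (unf ch r t).2.1)) ∧
      (∀ v < (unf ch r t).2.1, ∃ ks : List ℕ, ks.Nodup ∧
        (∀ u, u ∈ ks ↔ 1 ≤ u ∧ u ≤ (unf ch r t).2.2.length ∧ par (unf ch r t).2.2 u = v) ∧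
        ks.map (fun v => all.getD v r) = ch (dep (unf ch r t).2.2 v) (all.getD v r)) := by
    intro t
    induction t with
    | zero =>
      refine ⟨[r], rfl, rfl, rfl, ?_, rfl, ?_, ?_⟩
      · intro i h
        simp [unf] at h
      · intro v hv
        have hv0 : v = 0 := by simpa [unf] using hv
        subst hv0
        simp [unf, dep, deps]
      · intro v hv
        simp [unf] at hv
    | succ t ih =>
      obtain ⟨all, h1, h2, h3, h4, h5, h6, h7⟩ := ih
      have hu : unf ch r (t + 1) = unfStep (ch t) (unf ch r t) := rfl
      generalize unf ch r t = st at h1 h2 h3 h4 h6 h7 hu
      obtain ⟨lev, m, p⟩ := st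
      simp only at h1 h2 h3 h4 h6 h7
      set q : List ℕ := qq (ch t) m lev with hq
      have hst : unfStep (ch t) (lev, m, p) = (lev.flatMap (ch t), m + lev.length, p ++ q) := by
        unfold unfStep
        rw [hq, ← Nat.add_zero m, ← qq_eq (ch t) lev m 0]
        rfl
      rw [hu, hst]
      simp only
      have hql : q.length = (lev.flatMap (ch t)).length := qq_length _ _ _
      have hqm : ∀ x ∈ q, m ≤ x ∧ x < m + lev.length := qq_mem _ _ _
      have htree : IsTreeCode (p ++ q) := by
        intro i hi
        rcases Nat.lt_or_ge i p.length with h | h
        · rw [List.getElem_append_left h]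
          exact h4 i h
        · rw [List.getElem_append_right h]
          have := (hqm _ (List.getElem_mem (l := q) (n := i - p.length)
            (by rw [List.length_append] at hi; omega))).2
          omega
      have hdl : ∀ v ≤ p.length, dep (p ++ q) v = dep p v := fun v hv =>
        dep_append_left hDEP h4 htree hv
      obtain ⟨-, hd0, hD⟩ := hDEP _ htree
      obtain ⟨-, hd0p, hDp⟩ := hDEP _ h4
      -- parents of the new vertices
      have hnew : ∀ i, i < q.length → ∃ x, q[i]? = some x ∧ par (p ++ q) (p.length + 1 + i) = x ∧
          m ≤ x ∧ x ≤ p.length := by
        intro i hi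
        refine ⟨q[i], List.getElem?_eq_getElem hi, ?_, ?_⟩
        · rw [par, if_neg (by omega), show p.length + 1 + i - 1 = p.length + i by omega,
            List.getD_eq_getElem _ _ (by rw [List.length_append]; omega),
            List.getElem_append_right (by omega)]
          congr 1
          omega
        · have := hqm _ (List.getElem_mem hi)
          omega
      refine ⟨all ++ lev.flatMap (ch t), ?_, ?_, ?_, htree, ?_, ?_, ?_⟩
      · rw [List.length_append, List.length_append]
        omega
      · rw [List.length_append]
        omega
      · rw [show m + lev.length = all.length by omega, List.drop_left]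
      · rw [List.getD_append _ _ _ _ (by omega)]
        exact h5
      · intro v hv
        rcases Nat.lt_or_ge p.length v with h | h
        · obtain ⟨i, rfl⟩ : ∃ i, v = p.length + 1 + i := ⟨v - (p.length + 1), by omega⟩
          obtain ⟨x, hx1, hx2, hx3, hx4⟩ := hnew i (by rw [List.length_append] at hv; omega)
          have h8 := (hD (p.length + 1 + i) (by omega) hv).2
          rw [hx2, hdl x hx4] at h8
          have h9 := h6 x hx4
          have h10 : ¬ dep p x < t := fun h => by
            have := h9.2.1 h
            omega
          omega
        · rw [hdl v h]
          have h9 := h6 v h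
          omega
      · intro v hv
        rcases Nat.lt_or_ge v m with h | h
        · obtain ⟨ks, hk1, hk2, hk3⟩ := h7 v h
          refine ⟨ks, hk1, ?_, ?_⟩
          · intro u
            rw [hk2]
            constructor
            · rintro ⟨h8, h9, h10⟩
              refine ⟨h8, by rw [List.length_append]; omega, ?_⟩
              rw [par_append_left h9, h10]
            · rintro ⟨h8, h9, h10⟩
              rcases Nat.lt_or_ge p.length u with h11 | h11
              · exfalso
                obtain ⟨i, rfl⟩ : ∃ i, u = p.length + 1 + i := ⟨u - (p.length + 1), by omega⟩
                obtain ⟨x, hx1, hx2, hx3, hx4⟩ := hnew i (by rw [List.length_append] at h9; omega)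
                omega
              · rw [par_append_left h11] at h10
                exact ⟨h8, h11, h10⟩
          · rw [hdl v (by omega), List.getD_append _ _ _ _ (by omega), ← hk3]
            apply List.map_congr_left
            intro u hu
            have := (hk2 u).1 hu
            rw [List.getD_append _ _ _ _ (by omega)]
        · obtain ⟨k, rfl⟩ : ∃ k, v = m + k := ⟨v - m, by omega⟩
          have hk : k < lev.length := by omega
          obtain ⟨ks, hk1, hk2, hk3⟩ := qq_children (ch t) lev m k hk
          rw [← hq] at hk2
          refine ⟨ks.map (fun i => p.length + 1 + i), hk1.map (fun a b h => by simpa using h),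
            ?_, ?_⟩
          · intro u
            rw [List.mem_map]
            constructor
            · rintro ⟨i, hi, rfl⟩
              have h8 := (hk2 i).1 hi
              have h9 : i < q.length := (List.getElem?_eq_some_iff.1 h8).1
              obtain ⟨x, hx1, hx2, -, -⟩ := hnew i h9
              rw [h8] at hx1
              refine ⟨by omega, by rw [List.length_append]; omega, ?_⟩
              rw [hx2]
              exact (Option.some.inj hx1).symm
            · rintro ⟨h8, h9, h10⟩
              rcases Nat.lt_or_ge p.length u with h11 | h11
              · obtain ⟨i, rfl⟩ : ∃ i, u = p.length + 1 + i := ⟨u - (p.length + 1), by omega⟩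
                obtain ⟨x, hx1, hx2, -, -⟩ := hnew i (by rw [List.length_append] at h9; omega)
                refine ⟨i, (hk2 i).2 ?_, rfl⟩
                rw [hx1, ← hx2, h10]
              · exfalso
                rw [par_append_left h11] at h10
                have h12 := (hDp u h8 h11).2
                rw [h10] at h12
                have h13 := h6 u h11
                have h14 := h6 (m + k) (by omega)
                omega
          · have h8 : dep (p ++ q) (m + k) = t := by
              rw [hdl _ (by omega)]
              have := h6 (m + k) (by omega)
              omega
            have h9 : (all ++ lev.flatMap (ch t)).getD (m + k) r = lev[k] := by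
              rw [List.getD_append _ _ _ _ (by omega), List.getD_eq_getElem _ _ (by omega)]
              have h10 : lev[k] = (all.drop m)[k]'(by rw [h3]; exact hk) := by
                congr 1
                exact h3.symm
              rw [h10, List.getElem_drop]
            rw [h8, h9, List.map_map]
            have h10 : List.map (fun o : Option D => o.getD r)
                (ks.map (fun i => (lev.flatMap (ch t))[i]?)) = ch t lev[k] := by
              rw [hk3, List.map_map]
              simp
            rw [← h10, List.map_map]
            apply List.map_congr_left
            intro i _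
            rw [Function.comp_apply, Function.comp_apply, List.getD_eq_getElem?_getD,
              List.getElem?_append_right (by omega), show p.length + 1 + i - all.length = i by omega]
  obtain ⟨all, h1, h2, h3, h4, h5, h6, h7⟩ := key H
  refine ⟨fun v => all.getD v r, h4, h5, ?_⟩
  intro v hv
  refine ⟨(h6 v hv).1, fun h => ?_⟩
  exact h7 v ((h6 v hv).2.1 h)

end Pool.FF.Helper91
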