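import Pool.Agent.Helper86.FF.Spec
import Pool.Graph.R_seed8.H671R2.PolyAuto

/-! # Firefighter on trees: the dynamic program is polynomial (part DPP) -/

namespace Pool.FF.Helper91

open Pool.FF Pool.Agent.NPC

section

variable {α : Type} [TEnc α]

theorem poly_unitM {ℓ d : α → ℕ} (hℓ : UPoly ℓ) (hd : Poly d) :
    Poly (fun a => unitM (ℓ a) (d a)) := by
  unfold unitM
  refine Agent.NPC.Poly.map (F := fun a j => decide (j + 1 = d a)) hℓ.range ?_
  fun_prop

theorem poly_disj {a b : α → List Bool} (ha : Poly a) (hb : Poly b) :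
    Poly (fun x => disj (a x) (b x)) := by
  unfold disj
  fun_prop

theorem poly_orM {a b : α → List Bool} (ha : Poly a) (hb : Poly b) :
    Poly (fun x => orM (a x) (b x)) := by
  unfold orM
  fun_prop

theorem poly_optT {ℓ : α → ℕ} {e : α → Ent} (hℓ : UPoly ℓ) (he : Poly e) :
    Poly (fun x => optT (ℓ x) (e x)) := by
  unfold optT
  have h1 := hℓ.toPoly
  have h2 : Poly (fun a => unitM (ℓ a) (e a).2.1) := poly_unitM hℓ (by fun_prop)
  refine Agent.NPC.Poly.ite (p := fun a => (e a).2.1 ≤ ℓ a) (by fun_prop) (by fun_prop) (by fun_prop)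

theorem poly_mergeT {C R R' : α → Tab} (hC : Poly C) (hR : Poly R) (hR' : Poly R') :
    Poly (fun x => mergeT (C x) (R x) (R' x)) := by
  unfold mergeT
  refine Agent.NPC.Poly.filter (p := fun x c => (R x).any (fun r => (R' x).any (fun r' =>
    disj r.1 r'.1 && decide (c = (orM r.1 r'.1, r.2 + r'.2))))) hC ?_
  refine Agent.NPC.Poly.any (p := fun (y : α × (List Bool × ℕ)) (r : List Bool × ℕ) =>
    (R' y.1).any (fun r' =>
    disj r.1 r'.1 && decide (y.2 = (orM r.1 r'.1, r.2 + r'.2)))) (by fun_prop) ?_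
  refine Agent.NPC.Poly.any (p := fun (z : (α × (List Bool × ℕ)) × (List Bool × ℕ))
    (r' : List Bool × ℕ) =>
    disj z.2.1 r'.1 && decide (z.1.2 = (orM z.2.1 r'.1, z.2.2 + r'.2))) (by fun_prop) ?_
  have h1 : Poly (fun w : ((α × (List Bool × ℕ)) × (List Bool × ℕ)) × (List Bool × ℕ) =>
    disj w.1.2.1 w.2.1) := poly_disj (by fun_prop) (by fun_prop)
  have h2 : Poly (fun w : ((α × (List Bool × ℕ)) × (List Bool × ℕ)) × (List Bool × ℕ) =>
    orM w.1.2.1 w.2.1) := poly_orM (by fun_prop) (by fun_prop)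
  fun_prop

theorem poly_dpStep {ℓ : α → ℕ} {C : α → Tab} {st : α → List Ent} {q : α → ℕ} (hℓ : UPoly ℓ)
    (hC : Poly C) (hst : Poly st) (hq : Poly q) :
    Poly (fun x => dpStep (ℓ x) (C x) (st x) (q x)) := by
  refine (Agent.NPC.Poly.listCases (l := st) (g := fun _ => ([] : List Ent))
    (h := fun x e st' => st'.map (fun f =>
      if f.1 = q x then (f.1, f.2.1, f.2.2.1 + e.2.2.1, mergeT (C x) f.2.2.2 (optT (ℓ x) e))
        else f)) hst (Agent.NPC.Poly.const _) ?_).congr ?_
  · refine Agent.NPC.Poly.map (F := fun (y : α × Ent × List Ent) (f : Ent) =>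
      if f.1 = q y.1 then (f.1, f.2.1, f.2.2.1 + y.2.1.2.2.1,
        mergeT (C y.1) f.2.2.2 (optT (ℓ y.1) y.2.1)) else f) (by fun_prop) ?_
    have h1 : Poly (fun z : (α × Ent × List Ent) × Ent => optT (ℓ z.1.1) z.1.2.1) :=
      poly_optT (UPoly.comp hℓ (by fun_prop)) (by fun_prop)
    have h2 : Poly (fun z : (α × Ent × List Ent) × Ent =>
      mergeT (C z.1.1) z.2.2.2.2 (optT (ℓ z.1.1) z.1.2.1)) :=
      poly_mergeT (by fun_prop) (by fun_prop) h1
    refine Agent.NPC.Poly.ite (p := fun z : (α × Ent × List Ent) × Ent => z.2.1 = q z.1.1)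
      (by fun_prop) (by fun_prop) (by fun_prop)
  · intro x
    unfold dpStep
    cases st x <;> rfl

end

/-! ### Sizes -/

theorem sz_filter_le {β : Type} [TEnc β] (f : β → Bool) (l : List β) : sz (l.filter f) ≤ sz l := by
  induction l with
  | nil => simp
  | cons b l ih =>
    rw [List.filter_cons]
    split_ifs
    · simp only [sz_list_cons]
      omega
    · simp only [sz_list_cons]
      omega

theorem sz_nat_le_lin {v N : ℕ} (h : v ≤ N) : sz v ≤ 4 * N + 1 := by
  have h1 := sz_nat_le v
  have h2 := Agent.NPC.Poly.size_le_self v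
  omega

theorem sz_pow_le {w k : ℕ} (h : w ≤ 2 ^ k) : sz w ≤ 4 * (k + 1) + 1 := by
  have h1 := sz_nat_le w
  have h2 : w.size ≤ k + 1 := by
    rw [Nat.size_le]
    calc w ≤ 2 ^ k := h
      _ < 2 ^ (k + 1) := Nat.pow_lt_pow_right (by omega) (by omega)
  omega

abbrev XX : Type := (List ℕ × ℕ) × List Unit

theorem sz_XX (x : XX) : x.1.1.length + x.2.length + sz x.1.2 + 2 ≤ sz x := by
  obtain ⟨⟨p, k⟩, pad⟩ := x
  simp only [sz_pair]
  have h1 := length_lt_sz p
  have h2 := length_lt_sz pad
  omega

theorem uPoly_ell : UPoly (fun x : XX => ell x.1.1 x.1.2) := by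
  unfold ell
  refine UPoly.length ?_
  refine Agent.NPC.Poly.filter (p := fun (x : XX) (j : ℕ) => decide (j * (j + 1) < 2 * x.1.2)) ?_
    (by fun_prop)
  exact UPoly.range (UPoly.add (UPoly.length (by fun_prop)) (UPoly.const 1))

theorem ell_le (p : List ℕ) (k : ℕ) : ell p k ≤ p.length + 1 := by
  unfold ell
  refine (List.length_filter_le _ _).trans ?_
  rw [List.length_range]

theorem trunc_length {β : Type} (u : List Unit) (l : List β) : (trunc u l).length ≤ u.length := by
  unfold trunc
  rw [List.length_map, List.length_zip]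
  omega

theorem mem_trunc {β : Type} (u : List Unit) (l : List β) {b : β} (h : b ∈ trunc u l) : b ∈ l := by
  unfold trunc at h
  rw [List.mem_map] at h
  obtain ⟨⟨b', u'⟩, h1, rfl⟩ := h
  exact (List.of_mem_zip h1).1

/-- one step of `masks` -/
def mstep (pad : List Unit) (acc : List (List Bool)) (_ : ℕ) : List (List Bool) :=
  trunc pad (acc.flatMap (fun m => [false :: m, true :: m]))

theorem masks_inv (pad : List Unit) (l : List ℕ) : ∀ (acc : List (List Bool)) (c : ℕ),
    acc.length ≤ 1 + pad.length → (∀ m ∈ acc, m.length = c) →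
    (l.foldl (mstep pad) acc).length ≤ 1 + pad.length ∧
      ∀ m ∈ l.foldl (mstep pad) acc, m.length = c + l.length := by
  induction l with
  | nil => intro acc c h1 h2; exact ⟨h1, by simpa using h2⟩
  | cons a l ih =>
    intro acc c h1 h2
    rw [List.foldl_cons, List.length_cons]
    have h3 := ih (mstep pad acc a) (c + 1) (by
      have := trunc_length pad (acc.flatMap (fun m => [false :: m, true :: m]))
      unfold mstep
      omega) (by
      intro m hm
      have h4 := mem_trunc _ _ hm
      rw [List.mem_flatMap] at h4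
      obtain ⟨m', hm', h5⟩ := h4
      have h6 := h2 m' hm'
      simp only [List.mem_cons, List.not_mem_nil, or_false] at h5
      rcases h5 with rfl | rfl <;> simp [h6])
    refine ⟨h3.1, fun m hm => ?_⟩
    rw [h3.2 m hm]
    omega

theorem poly_masks : Agent.NPC.Poly (fun x : XX => masks (ell x.1.1 x.1.2) x.2) := by
  refine (Agent.NPC.Poly.foldl (l := fun x : XX => List.range (ell x.1.1 x.1.2))
    (s := fun _ => ([[]] : List (List Bool))) (F := fun x acc j => mstep x.2 acc j)
    uPoly_ell.range (Agent.NPC.Poly.const _) ?_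
    ((Polynomial.X + Polynomial.C 1) * (Polynomial.C 4 * (Polynomial.X + Polynomial.C 2) +
      Polynomial.C 2) + Polynomial.C 1) ?_).congr ?_
  · unfold mstep trunc
    fun_prop
  · intro x k _
    obtain ⟨h1, h2⟩ := masks_inv x.2 ((List.range (ell x.1.1 x.1.2)).take k) [[]] 0 (by simp)
      (by simp)
    have h3 : ((List.range (ell x.1.1 x.1.2)).take k).length ≤ x.1.1.length + 1 := by
      rw [List.length_take, List.length_range]
      exact (min_le_right _ _).trans (ell_le _ _)
    have h4 := sz_le_length_mul (((List.range (ell x.1.1 x.1.2)).take k).foldl (mstep x.2) [[]])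
      (4 * (x.1.1.length + 1) + 1) (by
        intro m hm
        have h5 := h2 m hm
        have h6 := sz_listBool_le m
        omega)
    have h7 := sz_XX x
    refine h4.trans ?_
    simp only [Polynomial.eval_add, Polynomial.eval_mul, Polynomial.eval_C, Polynomial.eval_X]
    apply Nat.add_le_add_right
    apply Nat.mul_le_mul
    · omega
    · omega
  · intro x
    rfl

theorem poly_cand : Agent.NPC.Poly (fun x : XX => cand x.1.1 (masks (ell x.1.1 x.1.2) x.2)) := by
  unfold cand
  refine Agent.NPC.Poly.flatMap (F := fun (x : XX) (m : List Bool) =>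
    (List.range (x.1.1.length + 1)).map (fun y => (m, y))) poly_masks ?_
  refine Agent.NPC.Poly.map (F := fun (z : XX × List Bool) (y : ℕ) => (z.2, y)) ?_ (by fun_prop)
  exact UPoly.range (UPoly.add (UPoly.length (by fun_prop)) (UPoly.const 1))

/-! ### The depths -/

theorem deps_inv (l : List ℕ) : ∀ (ds : List ℕ) (c : ℕ), ds.length = c + 1 → (∀ d ∈ ds, d ≤ c) →
    (l.foldl (fun ds q => ds ++ [ds.getD q 0 + 1]) ds).length = c + l.length + 1 ∧
      ∀ d ∈ l.foldl (fun ds q => ds ++ [ds.getD q 0 + 1]) ds, d ≤ c + l.length := by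
  induction l with
  | nil => intro ds c h1 h2; exact ⟨by simpa using h1, by simpa using h2⟩
  | cons a l ih =>
    intro ds c h1 h2
    rw [List.foldl_cons, List.length_cons]
    have h3 := ih (ds ++ [ds.getD a 0 + 1]) (c + 1) (by simp [h1]) (by
      intro d hd
      rw [List.mem_append, List.mem_singleton] at hd
      rcases hd with hd | rfl
      · have := h2 d hd
        omega
      · rcases Nat.lt_or_ge a ds.length with h | h
        · rw [List.getD_eq_getElem _ _ h]
          have := h2 _ (List.getElem_mem h)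
          omega
        · rw [List.getD_eq_default _ _ h]
          omega)
    refine ⟨by rw [h3.1]; omega, fun d hd => ?_⟩
    have := h3.2 d hd
    omega

theorem deps_len (p : List ℕ) : (deps p).length = p.length + 1 ∧ ∀ d ∈ deps p, d ≤ p.length := by
  have := deps_inv p [0] 0 rfl (by simp)
  simpa [deps] using this

theorem poly_deps : Agent.NPC.Poly (fun x : XX => deps x.1.1) := by
  refine (Agent.NPC.Poly.foldl (l := fun x : XX => x.1.1) (s := fun _ => [0])
    (F := fun _ ds q => ds ++ [ds.getD q 0 + 1]) (by fun_prop) (Agent.NPC.Poly.const _)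
    (by fun_prop) (Polynomial.X * (Polynomial.C 4 * Polynomial.X + Polynomial.C 2) +
      Polynomial.C 1) ?_).congr ?_
  · intro x k _
    obtain ⟨h1, h2⟩ := deps_inv (x.1.1.take k) [0] 0 rfl (by simp)
    have h3 : (x.1.1.take k).length ≤ x.1.1.length := by
      rw [List.length_take]
      exact min_le_right _ _
    have h4 := sz_le_length_mul ((x.1.1.take k).foldl (fun ds q => ds ++ [ds.getD q 0 + 1]) [0])
      (4 * x.1.1.length + 1) (by
        intro d hd
        have := h2 d hd
        exact sz_nat_le_lin (by omega))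
    have h5 := sz_XX x
    refine h4.trans ?_
    simp only [Polynomial.eval_add, Polynomial.eval_mul, Polynomial.eval_C, Polynomial.eval_X]
    apply Nat.add_le_add_right
    apply Nat.mul_le_mul
    · omega
    · omega
  · intro x
    rfl

theorem poly_dpInit : Agent.NPC.Poly (fun x : XX => dpInit (ell x.1.1 x.1.2) x.1.1) := by
  unfold dpInit
  have h1 := poly_deps
  have h2 : Agent.NPC.Poly (fun z : XX × (ℕ × ℕ) => unitM (ell z.1.1.1 z.1.1.2) 0) :=
    poly_unitM (UPoly.comp (n := fun x : XX => ell x.1.1 x.1.2)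
      (f := fun z : XX × (ℕ × ℕ) => z.1) uPoly_ell (by fun_prop)) (by fun_prop)
  fun_prop

/-! ### The run -/

/-- The invariant of the states of the dynamic program. -/
def DInv (N T j : ℕ) (st : List Ent) : Prop :=
  st.length ≤ N + 1 ∧ ∀ e ∈ st, e.1 ≤ N ∧ e.2.1 ≤ N ∧ e.2.2.1 ≤ 2 ^ j ∧ sz e.2.2.2 ≤ T

theorem dinv_step {N T j ℓ q : ℕ} {C : Tab} {st : List Ent} (hC : sz C ≤ T) (h : DInv N T j st) :
    DInv N T (j + 1) (dpStep ℓ C st q) := by
  obtain ⟨h1, h2⟩ := h
  cases st with
  | nil => exact ⟨by simp [dpStep], by simp [dpStep]⟩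
  | cons e st =>
    refine ⟨?_, ?_⟩
    · simp only [dpStep, List.length_map]
      rw [List.length_cons] at h1
      omega
    · intro f hf
      simp only [dpStep, List.mem_map] at hf
      obtain ⟨g, hg, rfl⟩ := hf
      obtain ⟨a1, a2, a3, a4⟩ := h2 g (List.mem_cons_of_mem _ hg)
      obtain ⟨-, -, b3, -⟩ := h2 e List.mem_cons_self
      have hp : 2 ^ (j + 1) = 2 ^ j + 2 ^ j := by rw [pow_succ]; ring
      split_ifs
      · refine ⟨a1, a2, by simp only; omega, ?_⟩
        exact (sz_filter_le _ _).trans hC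
      · exact ⟨a1, a2, by omega, a4⟩

theorem dinv_foldl {N T ℓ : ℕ} {C : Tab} (hC : sz C ≤ T) (l : List ℕ) : ∀ (st : List Ent) (j : ℕ),
    DInv N T j st → DInv N T (j + l.length) (l.foldl (dpStep ℓ C) st) := by
  induction l with
  | nil => intro st j h; exact h
  | cons a l ih =>
    intro st j h
    rw [List.foldl_cons, List.length_cons]
    have := ih _ _ (dinv_step (ℓ := ℓ) (q := a) hC h)
    rwa [show j + 1 + l.length = j + (l.length + 1) by omega] at this

theorem dinv_init (ℓ : ℕ) (p : List ℕ) (T : ℕ) (hT : sz [(unitM ℓ 0, 0)] ≤ T) :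
    DInv p.length T 0 (dpInit ℓ p) := by
  obtain ⟨h1, h2⟩ := deps_len p
  refine ⟨?_, ?_⟩
  · unfold dpInit
    rw [List.length_reverse, List.length_map, List.length_zipIdx, h1]
  · intro e he
    unfold dpInit at he
    rw [List.mem_reverse, List.mem_map] at he
    obtain ⟨⟨d, i⟩, hdi, rfl⟩ := he
    have h3 := List.mem_zipIdx hdi
    have h4 : d ∈ deps p := by
      rw [h3.2.2]
      exact List.getElem_mem _
    refine ⟨by simp only; omega, h2 d h4, by simp, hT⟩

theorem sz_dinv {N T j : ℕ} {st : List Ent} (h : DInv N T j st) :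
    sz st ≤ (N + 1) * ((4 * N + 1) + (4 * N + 1) + (4 * (j + 1) + 1) + T + 4) + 1 := by
  obtain ⟨h1, h2⟩ := h
  refine (sz_le_length_mul st ((4 * N + 1) + (4 * N + 1) + (4 * (j + 1) + 1) + T + 3) ?_).trans ?_
  · intro e he
    obtain ⟨a1, a2, a3, a4⟩ := h2 e he
    obtain ⟨v, d, w, tab⟩ := e
    simp only at a1 a2 a3 a4
    simp only [sz_pair]
    have b1 := sz_nat_le_lin a1
    have b2 := sz_nat_le_lin a2
    have b3 := sz_pow_le a3
    omega
  · apply Nat.add_le_add_right
    exact Nat.mul_le_mul h1 le_rfl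

theorem dpp : S_DPP := by
  unfold S_DPP dpAns
  have hrun : Agent.NPC.Poly (fun x : XX => dpRun (ell x.1.1 x.1.2) x.2 x.1.1) := by
    obtain ⟨r1, hr1⟩ := poly_cand.sz_le
    have hunit : Agent.NPC.Poly (fun x : XX => ([(unitM (ell x.1.1 x.1.2) 0, 0)] : Tab)) := by
      have := poly_unitM (α := XX) uPoly_ell (Agent.NPC.Poly.const 0)
      fun_prop
    obtain ⟨r2, hr2⟩ := hunit.sz_le
    refine (Agent.NPC.Poly.foldl (l := fun x : XX => x.1.1.reverse)
      (s := fun x => dpInit (ell x.1.1 x.1.2) x.1.1)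
      (F := fun x st q => dpStep (ell x.1.1 x.1.2) (cand x.1.1 (masks (ell x.1.1 x.1.2) x.2)) st q)
      (by fun_prop) poly_dpInit ?_
      ((Polynomial.X) * (Polynomial.C 12 * Polynomial.X + (r1 + r2) + Polynomial.C 11) +
        Polynomial.C 1) ?_).congr ?_
    · exact poly_dpStep (α := XX × List Ent × ℕ) (ℓ := fun y => ell y.1.1.1 y.1.1.2)
        (C := fun y => cand y.1.1.1 (masks (ell y.1.1.1 y.1.1.2) y.1.2))
        (UPoly.comp (n := fun x : XX => ell x.1.1 x.1.2)
          (f := fun z : XX × List Ent × ℕ => z.1) uPoly_ell (by fun_prop))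
        (Agent.NPC.Poly.comp (g := fun x : XX => cand x.1.1 (masks (ell x.1.1 x.1.2) x.2))
          (f := fun z : XX × List Ent × ℕ => z.1) poly_cand (by fun_prop))
        (by fun_prop) (by fun_prop)
    · intro x k _
      have h1 : DInv x.1.1.length (r1.eval (sz x) + r2.eval (sz x)) 0
          (dpInit (ell x.1.1 x.1.2) x.1.1) := dinv_init _ _ _ ((hr2 x).trans (by omega))
      have h2 := dinv_foldl (ℓ := ell x.1.1 x.1.2)
        (C := cand x.1.1 (masks (ell x.1.1 x.1.2) x.2)) ((hr1 x).trans (by omega))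
        (x.1.1.reverse.take k) _ _ h1
      have h3 := sz_dinv h2
      have h4 : (x.1.1.reverse.take k).length ≤ x.1.1.length := by
        rw [List.length_take, List.length_reverse]
        exact min_le_right _ _
      have h5 := sz_XX x
      refine h3.trans ?_
      simp only [Polynomial.eval_add, Polynomial.eval_mul, Polynomial.eval_C, Polynomial.eval_X]
      apply Nat.add_le_add_right
      apply Nat.mul_le_mul
      · omega
      · omega
    · intro x
      rfl
  refine Agent.NPC.Poly.any (p := fun (x : XX) (e : Ent) =>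
    e.2.2.2.any (fun r => decide (x.1.2 ≤ r.2))) hrun ?_
  fun_prop

end Pool.FF.Helper91
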