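import Pool.Agent.Helper91.FF.HALL

/-! # Firefighter on trees: codes and trees (part TREE) -/

namespace Pool.FF.Helper91

open Pool.FF

theorem codeTree_isTree (hDEP : S_DEP) (p : List ℕ) (hp : IsTreeCode p) : (codeTree p).IsTree := by
  classical
  obtain ⟨-, hd0, hD⟩ := hDEP p hp
  rw [SimpleGraph.isTree_iff_connected_and_card]
  refine ⟨?_, ?_⟩
  · have hreach : ∀ v : ℕ, ∀ hv : v < p.length + 1,
        (codeTree p).Reachable 0 (⟨v, hv⟩ : Fin (p.length + 1)) := by
      intro v
      induction v using Nat.strong_induction_on with
      | _ v ih =>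
        intro hv
        rcases Nat.eq_zero_or_pos v with h | h
        · subst h
          exact SimpleGraph.Reachable.refl _
        · have h1 := (hD v h (by omega)).1
          refine (ih (par p v) h1 (by omega)).trans (SimpleGraph.Adj.reachable ?_)
          rw [adj_iff _ _ hD]
          left
          exact ⟨h, rfl⟩
    have : Nonempty (Fin (p.length + 1)) := ⟨0⟩
    refine ⟨fun u v => ?_⟩
    exact (hreach u.1 u.2).symm.trans (hreach v.1 v.2)
  · -- edges correspond to the vertices different from the root
    have h1 : Nat.card (codeTree p).edgeSet = Nat.card (Fin p.length) := by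
      symm
      apply Nat.card_congr
      have hpar : ∀ i : Fin p.length, par p (i.1 + 1) < p.length + 1 := fun i => by
        have := (hD (i.1 + 1) (by omega) (by omega)).1
        omega
      let F : Fin p.length → (codeTree p).edgeSet := fun i =>
        ⟨s((⟨par p (i.1 + 1), hpar i⟩ : Fin (p.length + 1)), ⟨i.1 + 1, by omega⟩), by
          rw [SimpleGraph.mem_edgeSet, adj_iff _ _ hD]
          left
          exact ⟨by simp, rfl⟩⟩
      apply Equiv.ofBijective F
      constructor
      · intro i j hij
        have h2 := congrArg Subtype.val hij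
        simp only [F, Sym2.eq_iff, Fin.mk.injEq] at h2
        have h3 := (hD (i.1 + 1) (by omega) (by omega)).1
        have h4 := (hD (j.1 + 1) (by omega) (by omega)).1
        apply Fin.ext
        omega
      · rintro ⟨e, he⟩
        induction e using Sym2.ind with
        | _ u v =>
          rw [SimpleGraph.mem_edgeSet, adj_iff _ _ hD] at he
          have hu := u.2
          have hv := v.2
          rcases he with ⟨h2, h3⟩ | ⟨h2, h3⟩
          · refine ⟨⟨v.1 - 1, by omega⟩, ?_⟩
            apply Subtype.ext
            simp only [F, Sym2.eq_iff]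
            left
            constructor
            · apply Fin.ext
              simp only
              rw [Nat.sub_add_cancel h2, h3]
            · apply Fin.ext
              simp only
              omega
          · refine ⟨⟨u.1 - 1, by omega⟩, ?_⟩
            apply Subtype.ext
            simp only [F, Sym2.eq_iff]
            right
            constructor
            · apply Fin.ext
              simp only
              rw [Nat.sub_add_cancel h2, h3]
            · apply Fin.ext
              simp only
              omega
    rw [h1]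
    simp

theorem exists_parent {V : Type} {G : SimpleGraph V} (hG : G.Connected) (s v : V) (hv : v ≠ s) :
    ∃ w, G.Adj w v ∧ G.dist s w < G.dist s v := by
  obtain ⟨q, hq⟩ := hG.exists_walk_length_eq_dist v s
  cases q with
  | nil => exact absurd rfl hv
  | cons h q =>
    rename_i w
    refine ⟨w, h.symm, ?_⟩
    rw [SimpleGraph.Walk.length_cons] at hq
    have := SimpleGraph.dist_le q
    have h1 : G.dist s w = G.dist w s := SimpleGraph.dist_comm
    have h2 : G.dist s v = G.dist v s := SimpleGraph.dist_comm
    omega

theorem tree (hDEP : S_DEP) : S_TREE := by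
  classical
  refine ⟨codeTree_isTree hDEP, ?_⟩
  intro V _ G hG s
  obtain ⟨n, hn⟩ : ∃ n, Fintype.card V = n + 1 :=
    ⟨Fintype.card V - 1, by have := Fintype.card_pos_iff.2 ⟨s⟩; omega⟩
  -- order the vertices by the distance from `s`
  let e0 : Fin (n + 1) ≃ V := (finCongr hn.symm).trans (Fintype.equivFin V).symm
  let f : Fin (n + 1) → ℕ := fun i => G.dist s (e0 i)
  let e : Fin (n + 1) ≃ V := (Tuple.sort f).trans e0
  have hmono : Monotone (fun i => G.dist s (e i)) := Tuple.monotone_sort f
  have he0 : e 0 = s := by
    have h1 : G.dist s (e 0) ≤ G.dist s (e (e.symm s)) := hmono (Fin.zero_le _)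
    rw [Equiv.apply_symm_apply, SimpleGraph.dist_self] at h1
    have h2 : G.dist s (e 0) = 0 := by omega
    exact (hG.connected.dist_eq_zero_iff.1 h2).symm
  have hpar : ∀ v, v ≠ s → ∃ w, G.Adj w v ∧ G.dist s w < G.dist s v := fun v hv =>
    exists_parent hG.connected s v hv
  have hchoose : ∀ v, ∃ w, v ≠ s → G.Adj w v ∧ G.dist s w < G.dist s v := by
    intro v
    by_cases h : v = s
    · exact ⟨s, fun h' => absurd h h'⟩
    · obtain ⟨w, hw⟩ := hpar v h
      exact ⟨w, fun _ => hw⟩
  choose P hP using hchoose
  have hne : ∀ i : Fin n, e i.succ ≠ s := by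
    intro i h
    rw [← he0] at h
    exact Fin.succ_ne_zero i (e.injective h)
  let p : List ℕ := List.ofFn (fun i : Fin n => (e.symm (P (e i.succ))).val)
  have hlen : p.length = n := List.length_ofFn
  have hpi : ∀ i, ∀ h : i < p.length, p[i] = (e.symm (P (e (⟨i, by omega⟩ : Fin n).succ))).val := by
    intro i h
    simp [p]
  have hcode : IsTreeCode p := by
    intro i h
    rw [hpi i h]
    obtain ⟨-, h2⟩ := hP _ (hne ⟨i, by omega⟩)
    by_contra h3
    push Not at h3
    have h4 : (⟨i, by omega⟩ : Fin n).succ ≤ e.symm (P (e (⟨i, by omega⟩ : Fin n).succ)) := by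
      rw [Fin.le_def, Fin.val_succ]
      exact h3
    have h5 := hmono h4
    simp only [Equiv.apply_symm_apply] at h5
    omega
  refine ⟨p, hcode, ?_⟩
  have hT := codeTree_isTree hDEP p hcode
  let e' : Fin (p.length + 1) ≃ V := (finCongr (by rw [hlen])).trans e
  have he' : ∀ u : Fin (p.length + 1), e' u = e ⟨u.1, by have := u.2; omega⟩ := by
    intro u
    rfl
  have hiso : G.comap e' ≃g G := SimpleGraph.Iso.comap e' G
  have hG' : (G.comap e').IsTree := (hiso.isTree_iff).2 hG
  have hle : codeTree p ≤ G.comap e' := by
    have key : ∀ u v : Fin (p.length + 1), (∃ i, ∃ h : i < p.length, v.1 = i + 1 ∧ u.1 = p[i]) →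
        G.Adj (e' u) (e' v) := by
      rintro u v ⟨i, h, hv, hu⟩
      obtain ⟨h1, -⟩ := hP _ (hne ⟨i, by omega⟩)
      rw [hpi i h] at hu
      have h2 : e' v = e (⟨i, by omega⟩ : Fin n).succ := by
        rw [he']
        congr 1
        apply Fin.ext
        simp [hv]
      have h3 : e' u = P (e (⟨i, by omega⟩ : Fin n).succ) := by
        rw [he']
        have : (⟨u.1, by have := u.2; omega⟩ : Fin (n + 1)) =
            e.symm (P (e (⟨i, by omega⟩ : Fin n).succ)) := Fin.ext hu
        rw [this, Equiv.apply_symm_apply]
      rw [h2, h3]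
      exact h1
    intro u v huv
    unfold codeTree at huv
    rw [SimpleGraph.fromRel_adj] at huv
    rw [SimpleGraph.comap_adj]
    rcases huv.2 with h | h
    · exact key u v h
    · exact (key v u h).symm
  have heq : codeTree p = G.comap e' :=
    le_antisymm hle ((SimpleGraph.isTree_iff_minimal_connected.1 hG').2 hT.connected hle)
  rw [heq]
  refine ⟨SimpleGraph.Iso.comap e' G, ?_⟩
  exact he0

end Pool.FF.Helper91
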